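import Pool.Agent.Lib.MP_459a07_lc.WMain

/-! Vizing colouring in `o(log n)` randomized LOCAL rounds, for every fixed maximum degree. -/

set_option autoImplicit false

namespace Pool.Agent.Results.MP_459a07_lc.Sublog

open Filter Topology Classical Pool.Agent.Lib.MP_459a07_lc

theorem result (Δ : ℕ) (hΔ : 1 ≤ Δ) :
    ∃ T : ℕ → ℕ, Tendsto (fun n : ℕ => (T n : ℝ) / Real.log n) atTop (𝓝 0) ∧
      ∀ᶠ n : ℕ in atTop, ∃ (B : ℕ) (A : Alg B (Δ + 1)), ∀ G : SimpleGraph (Fin n),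
        (∀ v, G.degree v ≤ Δ) → ∀ id : Fin n → ℕ, Function.Injective id →
        (1 - 1 / (n : ℝ)) * 2 ^ (n * B) ≤
          ((Finset.univ.filter fun ω : Fin n → Fin B → Bool =>
            A.Colours G id (T n) ω).card : ℝ) := by
  let P : ℕ → ℕ → Prop := fun n T => ∃ (B : ℕ) (A : Alg B (Δ + 1)), ∀ G : SimpleGraph (Fin n),
    (∀ v, G.degree v ≤ Δ) → ∀ id : Fin n → ℕ, Function.Injective id →
      (1 - 1 / (n : ℝ)) * 2 ^ (n * B) ≤
        ((Finset.univ.filter fun ω : Fin n → Fin B → Bool => A.Colours G id T ω).card : ℝ)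
  have key : ∀ ε : ℝ, 0 < ε → ∀ᶠ n : ℕ in atTop, ∃ T : ℕ, (T : ℝ) ≤ ε * Real.log n ∧ P n T :=
    fun ε hε => V.mainV Δ hΔ hε
  refine ⟨fun n => sInf {T | P n T}, ?_, ?_⟩
  · rw [Metric.tendsto_nhds]
    intro ε hε
    filter_upwards [key (ε / 2) (half_pos hε), eventually_ge_atTop 2] with n ⟨T, h1, h2⟩ hn
    have hl : 0 < Real.log n := Real.log_pos (by exact_mod_cast hn)
    have h3 : ((sInf {T | P n T} : ℕ) : ℝ) ≤ T := by exact_mod_cast Nat.sInf_le h2
    rw [Real.dist_eq, sub_zero, abs_of_nonneg (by positivity), div_lt_iff₀ hl]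
    nlinarith
  · filter_upwards [key 1 one_pos] with n ⟨T, _, h2⟩
    exact Nat.sInf_mem (s := {T | P n T}) ⟨T, h2⟩

end Pool.Agent.Results.MP_459a07_lc.Sublog
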